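import Mathlib
import Pool.Agent.Helper69.BQ.St.M3

/-!
# Project BQ, piece S2: the conditions `Adm`
-/

namespace Pool.Agent.Helper65.BQ

open Module NumberField Pool.Agent.Helper25.Biq Pool.Agent.Helper69.BQ Cert

lemma dot_two_pow (N : ℕ) (x : ℕ → ZMod 2) {j : ℕ} (hj : j < N) : dot N x (2 ^ j) = x j := by
  unfold dot bitz
  rw [Finset.sum_eq_single j]
  · simp
  · intro b _ hb
    rw [Nat.testBit_two_pow, if_neg, zero_mul]
    simpa using hb.symm
  · intro h
    exact absurd (Finset.mem_range.2 hj) h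

lemma dot_bt (N : ℕ) (x : ℕ → ZMod 2) (b : Bool) {j : ℕ} (hj : j < N) :
    dot N x (bt b j) = (if b then 1 else 0) * x j := by
  unfold bt
  cases b
  · simp [dot, bitz]
  · simp only [if_true, one_mul]
    exact dot_two_pow N x hj

lemma valM_xor_one (ps : List ℕ) {dk : ℕ} (hdk : dk % 2 = 0) :
    valM ps (dk ^^^ 1) = -valM ps dk := by
  have h1 : dk ^^^ 1 = dk + 1 := by
    have : Even dk := Nat.even_iff.2 hdk
    exact Nat.xor_one_of_even this
  rw [h1]
  unfold valM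
  have h2 : (dk + 1) % 2 = 1 := by omega
  have h3 : (dk + 1) / 2 = dk / 2 := by omega
  have h4 : (dk + 1) / 4 = dk / 4 := by omega
  rw [h2, h3, h4, hdk]
  split_ifs <;> simp_all

/-- S2 (from M12, M9; `d` is one of the three radicands, see S1c, S1d). An admissible number
satisfies the listed conditions, up to sign. -/
lemma adm_consK {ps chi : List ℕ} (hps : ∀ p ∈ ps, p.Prime ∧ p ≠ 2 ∧ p < 2 ^ 30)
    (hnd : ps.Nodup) (hchi : chi = ps.map (chiM ps)) {d : ℤ} {dk : ℕ} (hd : d = valM ps dk)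
    (hdk : dk % 2 = 0) (hd2 : ∀ i < ps.length, dk.testBit (i + 2) = true ↔ ((gt ps i : ℕ) : ℤ) ∣ d)
    (hd3 : ∀ p : ℕ, p.Prime → p ≠ 2 → p ∉ ps → ¬ (p : ℤ) ∣ d) {s : ℚ} (hs : Adm d s) :
    SuppOn ps s ∧ ∃ ε : ℚ, (ε = 1 ∨ ε = -1) ∧ ∀ a ∈ consK (ps.length + 2) chi dk,
      dot (ps.length + 2) (co ps (ε * s)) a = 0 := by
  have hsupp : SuppOn ps s := ⟨hs.ne, fun p hp hp2 hpn => hs.supp p hp hp2 (hd3 p hp hp2 hpn)⟩
  refine ⟨hsupp, ?_⟩
  obtain ⟨ε, hε, hnm⟩ := hs.nm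
  refine ⟨ε, hε, ?_⟩
  have hvv : ∀ p : ℕ, vv p (ε * s) = vv p s := by
    intro p
    rcases hε with h | h
    · rw [h, one_mul]
    · rw [h, neg_one_mul, vv_neg]
  have hsupp' : SuppOn ps (ε * s) := by
    refine ⟨mul_ne_zero ?_ hs.ne, fun p hp hp2 hpn => ?_⟩
    · rcases hε with h | h <;> rw [h] <;> norm_num
    · rw [hvv]; exact hsupp.2 p hp hp2 hpn
  intro a ha
  unfold consK at ha
  rw [List.mem_map] at ha
  obtain ⟨i, hi, rfl⟩ := ha
  have hi' : i < ps.length := by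
    rw [List.mem_range] at hi; omega
  have hgt : gt ps i = ps[i] := by
    unfold gt
    simp [List.getD_eq_getElem?_getD, hi']
  have hmem : gt ps i ∈ ps := by rw [hgt]; exact List.getElem_mem hi'
  have hgchi : gt chi i = chiM ps (gt ps i) := by
    unfold gt
    rw [hchi]
    simp [List.getD_eq_getElem?_getD, hi']
  obtain ⟨hp, hp2, hplt⟩ := hps _ hmem
  have hco : co ps (ε * s) (i + 2) = vv (gt ps i) s := by
    have : co ps (ε * s) (i + 2) = vv (ps.getD i 0) (ε * s) := rfl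
    rw [this, hvv]
    rfl
  split_ifs with hbit
  · have hdvd := (hd2 i hi').1 hbit
    rw [dot_xor, dot_bt _ _ _ (by omega), hco, hgchi, ← xx_eq_dot hps hnd hmem hsupp',
      hnm _ hp hp2 hdvd]
    have hxx : xx (gt ps i) ((-d : ℤ) : ℚ) =
        if par (ps.length + 2) (chiM ps (gt ps i) &&& (dk ^^^ 1)) then 1 else 0 := by
      have h1 : (-d : ℤ) = valM ps (dk ^^^ 1) := by rw [valM_xor_one ps hdk, hd]
      have hps' : ∀ p ∈ ps, p.Prime ∧ p ≠ 2 := fun p hp => ⟨(hps p hp).1, (hps p hp).2.1⟩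
      rw [h1, xx_eq_dot hps hnd hmem (supp_valM hps' _), ← dot_bitz]
      unfold dot
      apply Finset.sum_congr rfl
      intro j hj
      rw [co_valM hps' hnd _ _ (Finset.mem_range.1 hj)]
    rw [hxx]
    exact CharTwo.add_self_eq_zero _
  · have hndvd : ¬ ((gt ps i : ℕ) : ℤ) ∣ d := fun h => hbit ((hd2 i hi').2 h)
    rw [dot_two_pow _ _ (by omega), hco]
    exact hs.supp _ hp hp2 hndvd

end Pool.Agent.Helper65.BQ
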